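import Mathlib
import Pool.Agent.Lib.MP_e04a0d_gt.Defs
import Pool.Agent.Lib.MP_e04a0d_gt.Count

namespace Pool.Agent.Results.MP_e04a0d_gt.AlephOne

open Pool.Agent.Lib.MP_e04a0d_gt

universe u

/-- For every class of spaces of dimension at most `0` that contains `M_dim`, a metrizable space
that is not countable-dimensional has structural number `ℵ₁`. -/
theorem result (A : ∀ Z : Type u, TopologicalSpace Z → Prop)
    (hA : ∀ (Z : Type u) (t : TopologicalSpace Z), A Z t → @CovDimLE Z t 0)
    (hM : ∀ (Z : Type u) (t : TopologicalSpace Z), MDim Z t → A Z t)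
    (X : Type u) [τ : TopologicalSpace X] [TopologicalSpace.MetrizableSpace X]
    (hX : ¬ CountableDimensional X) :
    structuralNumber A X τ = ((Cardinal.aleph 1 : Cardinal.{u}) : WithTop Cardinal.{u}) := by
  have hne : Nonempty X := by
    by_contra h
    rw [not_nonempty_iff] at h
    exact hX ⟨fun _ => Set.univ, Set.iUnion_const _, fun _ 𝒰 h1 h2 h3 =>
      ⟨𝒰, h1, h2, h3, fun V hV => ⟨V, hV, subset_rfl⟩, fun x => isEmptyElim x.1⟩⟩
  have hmem : Cardinal.aleph 1 ∈ admissible A X τ := by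
    obtain ⟨I, T, hI, hT, hU⟩ := aleph_one_mem_admissible (X := X)
    exact ⟨I, T, hI, fun i => ⟨(hT i).1, hM X _ (hT i).2⟩, hU⟩
  have hleast : IsLeast (admissible A X τ) (Cardinal.aleph 1) := by
    refine ⟨hmem, ?_⟩
    rintro κ ⟨I, T, rfl, hT, hU⟩
    by_contra hlt
    rw [not_le, ← Cardinal.succ_aleph0, Order.lt_succ_iff, Cardinal.mk_le_aleph0_iff] at hlt
    exact hX (countableDimensional_of_countable T (fun i => hA X _ (hT i).2) hU)
  rw [structuralNumber, if_pos ⟨_, hmem⟩, hleast.csInf_eq]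

end Pool.Agent.Results.MP_e04a0d_gt.AlephOne
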