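import Mathlib
import Pool.Agent.Lib.MP_e04a0d_gt.Defs
import Pool.Agent.Lib.MP_e04a0d_gt.Sharp

namespace Pool.Agent.Results.MP_e04a0d_gt.LogBound

open Pool.Agent.Lib.MP_e04a0d_gt

universe u

/-- If a metrizable space has covering dimension at least `2 ^ k`, its structural number with
respect to any class of spaces of dimension at most `0` is at least `k + 2`. -/
theorem result (A : ∀ Z : Type u, TopologicalSpace Z → Prop)
    (hA : ∀ (Z : Type u) (t : TopologicalSpace Z), A Z t → @CovDimLE Z t 0)
    (X : Type u) [τ : TopologicalSpace X] [TopologicalSpace.MetrizableSpace X] (k : ℕ)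
    (hdim : ¬ CovDimLE X (2 ^ k - 1)) :
    (((k + 2 : ℕ) : Cardinal.{u}) : WithTop Cardinal.{u}) ≤ structuralNumber A X τ := by
  unfold structuralNumber
  split_ifs with hne
  · rw [WithTop.coe_le_coe]
    refine le_csInf hne ?_
    rintro κ ⟨I, T, rfl, hT, hU⟩
    by_contra hlt
    rw [not_le] at hlt
    have hfin : Finite I := Cardinal.lt_aleph0_iff_finite.1 (hlt.trans (Cardinal.natCast_lt_aleph0))
    have := Fintype.ofFinite I
    rw [Cardinal.mk_fintype, Nat.cast_lt] at hlt
    exact hdim (covDimLE_two_pow T (fun i => hA X _ (hT i).2) hU (by omega))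
  · exact le_top

end Pool.Agent.Results.MP_e04a0d_gt.LogBound
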