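import Mathlib
import Pool.Agent.Lib.MP_e04a0d_gt.Defs
import Pool.Agent.Lib.MP_e04a0d_gt.Lower
import Pool.Agent.Lib.MP_e04a0d_gt.Upper

namespace Pool.Agent.Results.MP_e04a0d_gt.StructuralNumber

open Pool.Agent.Lib.MP_e04a0d_gt

universe u

/-- For every metrizable countable-dimensional space of infinite covering dimension, the
structural number with respect to metrizable spaces of dimension zero is `ℵ₀`. -/
theorem result (X : Type u) [τ : TopologicalSpace X] [TopologicalSpace.MetrizableSpace X]
    (hc : CountableDimensional X) (hinf : CovDimInfinite X) :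
    structuralNumber MDim X τ = ((Cardinal.aleph0 : Cardinal.{u}) : WithTop Cardinal.{u}) := by
  have hne : Nonempty X := by
    by_contra hX
    rw [not_nonempty_iff] at hX
    exact hinf 0 fun 𝒰 h1 h2 h3 => ⟨𝒰, h1, h2, h3, fun V hV => ⟨V, hV, subset_rfl⟩,
      fun x => isEmptyElim x⟩
  have hmem := aleph0_mem_admissible hc
  have hleast : IsLeast (admissible MDim X τ) Cardinal.aleph0 := by
    refine ⟨hmem, ?_⟩
    rintro κ ⟨I, T, rfl, hT, hU⟩
    by_contra hlt
    rw [not_le, Cardinal.lt_aleph0_iff_finite] at hlt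
    have := Fintype.ofFinite I
    exact hinf _ (covDimLE_of_finite T (fun i => (hT i).2.2.2) hU)
  rw [structuralNumber, if_pos ⟨_, hmem⟩, hleast.csInf_eq]

end Pool.Agent.Results.MP_e04a0d_gt.StructuralNumber
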